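import Mathlib
import Pool.Agent.W964.Wd.Sp.Defs
import Pool.Agent.W964.Wd.Alt.Defs

/-!
Parallel oracle machines with guesses and alternation.
-/

namespace Pool.Agent.W964.Wd

/-- The questions to the oracle have length at most `k`, and for every `l ≤ k` the oracle set or
its complement contains at most `D` strings of length `l`. -/
def OMachine.SemiSparse {W J : Type} {P : ℕ} (M : OMachine W J P) (k D : ℕ) : Prop :=
  (∀ q, (M.ask q).length ≤ k) ∧ ∀ l, l ≤ k →
    {s | s ∈ M.oracle ∧ s.length = l}.encard ≤ D ∨ {s | s ∉ M.oracle ∧ s.length = l}.encard ≤ D

/-- A parallel oracle machine with guesses: the initial state of processor `p` is `init γ p`,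
where `γ` is the guess. -/
structure OGuess (W J : Type) (P : ℕ) (Γ : Type) where
  base : OMachine W J P
  init : Γ → Fin P → base.Q

/-- The deterministic oracle machine with the guess `γ`. -/
@[reducible] def OGuess.fix {W J : Type} {P : ℕ} {Γ : Type} (G : OGuess W J P Γ) (γ : Γ) :
    OMachine W J P := { G.base with start := G.init γ }

/-- The answer of an alternating oracle machine: the processors guess according to the quantifiers
`L` and then make `T` steps. -/
noncomputable def OGuess.altAnswer {W J : Type} {P : ℕ} {L : List (Bool × ℕ)}
    (G : OGuess W J P (Choices L)) (T : ℕ) (x : J → W) : Bool :=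
  quant L (fun γ => (G.fix γ).answer T x)

/-- A randomized alternating oracle machine: a probability distribution on finitely many
alternating oracle machines with the quantifiers `L` (which may even have different oracles). -/
structure ROAMachine (W J : Type) (P : ℕ) (L : List (Bool × ℕ)) where
  Ω : Type
  fin : Fintype Ω
  prob : Ω → ℝ
  nonneg : ∀ ω, 0 ≤ prob ω
  total : ∑ ω, prob ω = 1
  mach : Ω → OGuess W J P (Choices L)

open Classical in
/-- The probability that the answer on the input `x` is the truth value of `p`. -/
noncomputable def ROAMachine.success {W J : Type} {P : ℕ} {L : List (Bool × ℕ)}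
    (R : ROAMachine W J P L) (T : ℕ) (x : J → W) (p : Prop) : ℝ :=
  letI := R.fin
  ∑ ω, if ((R.mach ω).altAnswer T x = true ↔ p) then R.prob ω else 0

end Pool.Agent.W964.Wd
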