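import Mathlib
import Pool.Agent.W964.Wd.Co.Sim
import Pool.Agent.W964.Wd.Co.Defs
import Pool.Agent.W964.Wd.Sp.Main
import Pool.Agent.W964.Wd.Alt.Main

/-!
Alternating machines with few guesses whose oracles are sparse or co-sparse on every length.
-/

set_option linter.unusedSectionVars false

namespace Pool.Agent.W964.Wd

open Finset Filter H568R2 H592R3 SmallDepth Pool.Agent.W964.Pram

section Sim
variable {W J : Type} {P : ℕ} (M : OMachine W J P) (k D H : ℕ) (ng : ℕ → Bool)
  (st0 : Fin P → M.Q) (en : ℕ → Fin D → Option (List M.V))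

lemma Co.sync_zero (eH : Fin H ≃ Fin P × Fin D × Fin k) (x : J → W) :
    Co.Sync M k D H ng st0 en eH x 0 0 := by
  refine ⟨rfl, ?_, ?_⟩
  · intro c
    cases c <;> rfl
  · intro p d t' _ h
    have h2 : (Co.SV.val M.blank : Co.SV M.V M.Q) = Co.SV.bad t' := h
    exact absurd h2 (by simp)

lemma Co.sync_all (hM : ∀ q, (M.ask q).length ≤ k)
    (hen : ∀ l, l ≤ k → ∀ s, (s ∈ Co.side M ng l ∧ s.length = l) ↔ ∃ d, en l d = some s)
    (eH : Fin H ≃ Fin P × Fin D × Fin k) (x : J → W) (t : ℕ) :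
    Co.Sync M k D H ng st0 en eH x t (4 * t) := by
  induction t with
  | zero => exact Co.sync_zero M k D H ng st0 en eH x
  | succ t ih => exact Co.sync_step M k D H ng st0 en hM hen eH x ih

lemma Co.sim_lists {K : ℕ} (hK : M.Lists K) (eH : Fin H ≃ Fin P × Fin D × Fin k) :
    (Co.simM M k D H ng st0 en eH).Lists (max K (max D 1)) := by
  intro q
  show (Co.query1 M k D en q).length ≤ _
  have h1 : 1 ≤ max K (max D 1) := (le_max_right D 1).trans (le_max_right _ _)
  cases q with
  | o0 t p q =>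
    show ((M.query q).map (Co.emb M D)).length ≤ _
    rw [List.length_map]
    exact (hK q).trans (le_max_left _ _)
  | o1 t p q o => exact Nat.zero_le _
  | o2 t p q o => exact Nat.zero_le _
  | o3 t p q o =>
    show (((List.finRange D).filter _).map _).length ≤ _
    rw [List.length_map]
    refine (List.length_filter_le _ _).trans ?_
    rw [List.length_finRange]
    exact (le_max_left _ _).trans (le_max_right _ _)
  | h0 t h => exact Nat.zero_le _
  | h1 t h => exact h1
  | h2 t h q =>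
    cases q with
    | none => exact Nat.zero_le _
    | some q =>
      show (match Co.probe M k D en q h.2.1 h.2.2 with
        | some cv => [Co.emb M D cv.1]
        | none => []).length ≤ _
      cases Co.probe M k D en q h.2.1 h.2.2 with
      | none => exact Nat.zero_le _
      | some cv => exact h1
  | h3 t h b => exact Nat.zero_le _

end Sim

/-- A machine with guesses and with an oracle that is sparse or co-sparse on every length is
simulated by a machine with guesses and without oracle. -/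
theorem sim_co {W J : Type} {P : ℕ} {Γ : Type} (G : OGuess W J P Γ) {k D K : ℕ}
    (hM : G.base.SemiSparse k D) (hK : G.base.Lists K) :
    ∃ N : Guess W J (P + P * (D * k)) Γ, N.base.Lists (max K (max D 1)) ∧
      ∀ γ x T, (N.fix γ).answer (4 * T) x = (G.fix γ).answer T x := by
  classical
  obtain ⟨eH⟩ : Nonempty (Fin (P * (D * k)) ≃ Fin P × Fin D × Fin k) :=
    ⟨(Fintype.equivFinOfCardEq (by simp)).symm⟩
  obtain ⟨ng, hng⟩ : ∃ ng : ℕ → Bool, ∀ l, l ≤ k →
      {s | s ∈ Co.side G.base ng l ∧ s.length = l}.encard ≤ D := by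
    refine ⟨fun l => decide (¬ {s | s ∈ G.base.oracle ∧ s.length = l}.encard ≤ D), ?_⟩
    intro l hl
    by_cases h1 : {s | s ∈ G.base.oracle ∧ s.length = l}.encard ≤ D
    · refine le_trans (le_of_eq ?_) h1
      congr 1
      ext s
      simp only [Co.side, Set.mem_ofPred_eq]
      simp [h1]
    · have h2 := (hM.2 l hl).resolve_left h1
      refine le_trans (le_of_eq ?_) h2
      congr 1
      ext s
      simp only [Co.side, Set.mem_ofPred_eq]
      simp [h1]
  have h1 : ∀ l : ℕ, ∃ f : Fin D → Option (List G.base.V), l ≤ k →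
      ∀ s, (s ∈ Co.side G.base ng l ∧ s.length = l) ↔ ∃ d, f d = some s := by
    intro l
    by_cases hl : l ≤ k
    · obtain ⟨f, hf⟩ := enum_set _ D (hng l hl)
      exact ⟨f, fun _ s => hf s⟩
    · exact ⟨fun _ => none, fun h => absurd h hl⟩
  choose en hen using h1
  refine ⟨{ base := Co.simM G.base k D (P * (D * k)) ng G.base.start en eH
            init := fun γ => Co.sts k D (P * (D * k)) eH (fun p => Co.SQ.o0 0 p (G.init γ p))
              (fun h => Co.SQ.h0 0 h) }, Co.sim_lists G.base k D _ ng _ en hK eH, ?_⟩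
  intro γ x T
  have h2 := (Co.sync_all G.base k D _ ng (G.init γ) en hM.1 hen eH x T).mem G.base.out
  show (Co.simM G.base k D (P * (D * k)) ng (G.init γ) en eH).accept
    (((Co.simM G.base k D (P * (D * k)) ng (G.init γ) en eH).run x (4 * T)).2
      (Co.emb G.base D G.base.out)) = _
  rw [h2]
  rfl

/-- Randomized alternating machines with few guesses and with oracles that are sparse or co-sparse
on every length fail on some formula. -/
theorem co_rand (ε : ℝ) (hε : 0 < ε) (K : ℕ) : ∃ C : ℝ, 0 < C ∧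
    ∀ (n T w M : ℕ) (L : List (Bool × ℕ)), 2 ≤ n → 1 ≤ T → (∀ qb ∈ L, 1 ≤ qb.2) →
    C * (((T + L.length : ℕ) : ℝ) * Real.log n) ≤ w → w ≤ n → n * 2 ^ w ≤ M →
    ∀ (P k D : ℕ) (R : ROAMachine Bool (Fin M × Fin n × Bool) P L),
      ((total L * (P * (1 + D * k) + L.length * (2 * n * M + 1)) : ℕ) : ℝ) ≤ 2 ^ ((1 - ε) * n) →
      D ≤ 2 ^ (K * n) →
      (∀ ω, (R.mach ω).base.Lists (2 ^ (K * n)) ∧ (R.mach ω).base.SemiSparse k D) →
      ∃ x, WidthLe x w ∧
        R.success T x (∃ α, Models x α) ≤ 1 / 2 + (2 : ℝ) ^ (-((w : ℝ) / C)) := by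
  obtain ⟨C, hC, H⟩ := alt_rand ε hε K
  refine ⟨4 * C, by positivity, ?_⟩
  intro n T w M L hn hT hL hw hwn hM P k D R hP hD hR
  have hnR : (2 : ℝ) ≤ n := by exact_mod_cast hn
  have hlog : 0 ≤ Real.log n := Real.log_nonneg (by linarith)
  choose N hN1 hN2 using fun ω => sim_co (R.mach ω) (hR ω).2 (hR ω).1
  have hPP : P + P * (D * k) = P * (1 + D * k) := by ring
  obtain ⟨x, hx1, hx2⟩ := H n (4 * T) w M L hn (by omega) hL (by
      refine le_trans ?_ hw
      have h1 : ((4 * T + L.length : ℕ) : ℝ) ≤ 4 * ((T + L.length : ℕ) : ℝ) := by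
        push_cast
        have : (0 : ℝ) ≤ L.length := Nat.cast_nonneg _
        linarith
      calc C * (((4 * T + L.length : ℕ) : ℝ) * Real.log n)
          ≤ C * ((4 * ((T + L.length : ℕ) : ℝ)) * Real.log n) := by
            apply mul_le_mul_of_nonneg_left _ hC.le
            exact mul_le_mul_of_nonneg_right h1 hlog
        _ = 4 * C * (((T + L.length : ℕ) : ℝ) * Real.log n) := by ring) hwn hM
    (P + P * (D * k))
    { Ω := R.Ω, fin := R.fin, prob := R.prob, nonneg := R.nonneg, total := R.total, mach := N }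
    (by rw [hPP]; exact hP) (by
      intro ω q
      exact (hN1 ω q).trans (max_le le_rfl (max_le hD Nat.one_le_two_pow)))
  refine ⟨x, hx1, ?_⟩
  have h1 : R.success T x (∃ α, Models x α) = RAMachine.success { Ω := R.Ω, fin := R.fin, prob := R.prob, nonneg := R.nonneg, total := R.total, mach := N } (4 * T) x (∃ α, Models x α) := by
    unfold ROAMachine.success RAMachine.success
    refine Finset.sum_congr rfl fun ω _ => ?_
    have h2 : (N ω).altAnswer (4 * T) x = (R.mach ω).altAnswer T x := by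
      unfold Guess.altAnswer OGuess.altAnswer
      congr 1
      funext γ
      exact hN2 ω γ x T
    dsimp only
    rw [h2]
  rw [h1]
  refine hx2.trans ?_
  have h2 : (2 : ℝ) ^ (-((w : ℝ) / C)) ≤ 2 ^ (-((w : ℝ) / (4 * C))) := by
    apply Real.rpow_le_rpow_of_exponent_le (by norm_num)
    rw [neg_le_neg_iff]
    exact div_le_div_of_nonneg_left (Nat.cast_nonneg w) hC (by linarith)
  linarith

/-- The asymptotic form. -/
theorem co_asym (δ : ℝ) (hδ : 0 < δ) (hδ2 : δ < 2) (K : ℕ) (T : ℕ → ℕ) (hT : ∀ n, 1 ≤ T n)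
    (hTo : (fun n : ℕ => (T n : ℝ) * Real.log n) =o[atTop] (fun n : ℕ => (n : ℝ))) :
    ∃ w M : ℕ → ℕ, (∃ C : ℝ, ∀ n, 2 ≤ n → (w n : ℝ) ≤ C * (T n * Real.log n) ∧
        (M n : ℝ) ≤ (n : ℝ) ^ (C * T n)) ∧
      ∀ c e : ℕ, ∀ᶠ n : ℕ in atTop,
        ∀ (L : List (Bool × ℕ)), L.length ≤ T n → (∀ qb ∈ L, 1 ≤ qb.2) →
        ∀ (P k D : ℕ) (R : ROAMachine Bool (Fin (M n) × Fin n × Bool) P L), 1 ≤ P →
          ((total L * (P * (1 + D * k)) : ℕ) : ℝ) ≤ (2 - δ) ^ n * (c * (M n : ℝ) ^ e) →
          D ≤ 2 ^ (K * n) →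
          (∀ ω, (R.mach ω).base.Lists (2 ^ (K * n)) ∧ (R.mach ω).base.SemiSparse k D) →
          ∃ x, WidthLe x (w n) ∧ R.success (T n) x (∃ α, Models x α) < 2 / 3 := by
  obtain ⟨ε, hε, H⟩ := asym δ hδ hδ2
  obtain ⟨C, hC, HC⟩ := co_rand ε hε K
  obtain ⟨w, hw, hA⟩ := H (2 * C + 1) (by linarith) T hT hTo
  refine ⟨w, fun n => n * 2 ^ w n, hw, fun c e => ?_⟩
  filter_upwards [hA (4 * c) (e + 3), eventually_ge_atTop 3] with n hn hn3
  obtain ⟨h1, h2, h3, h4, _, h6⟩ := hn
  intro L hLT hL P k D R hP1 hP hD hR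
  have hn3R : (3 : ℝ) ≤ n := by exact_mod_cast hn3
  have hlog1 : 1 ≤ Real.log n := by
    rw [Real.le_log_iff_exp_le (by linarith)]
    have := Real.exp_one_lt_d9
    linarith
  have hTn : T n ≤ n := by
    have h7 : (T n : ℝ) ≤ n := by
      have h8 : (w n : ℝ) ≤ n := by exact_mod_cast h3
      have h9 : (0 : ℝ) ≤ T n := Nat.cast_nonneg _
      have h10 : (T n : ℝ) * 1 ≤ T n * Real.log n := mul_le_mul_of_nonneg_left hlog1 h9
      have h11 : 0 ≤ C * (T n * Real.log n) := by positivity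
      linarith
    exact_mod_cast h7
  obtain ⟨M, hMdef⟩ : ∃ M : ℕ, M = n * 2 ^ w n := ⟨_, rfl⟩
  have hnM : n ≤ M := by
    rw [hMdef]
    exact Nat.le_mul_of_pos_right _ (Nat.pow_pos (by norm_num))
  obtain ⟨P', hP'⟩ : ∃ P' : ℕ, P' = P * (1 + D * k) := ⟨_, rfl⟩
  have hP'1 : 1 ≤ P' := by
    rw [hP']
    exact Nat.mul_pos hP1 (by omega)
  have hproc : total L * (P' + L.length * (2 * n * M + 1)) ≤ total L * P' * (4 * M ^ 3) := by
    rw [mul_assoc (total L) P' (4 * M ^ 3)]
    apply Nat.mul_le_mul_left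
    have h7 : L.length * (2 * n * M + 1) ≤ M * (2 * M * M + 1) := by
      apply Nat.mul_le_mul (hLT.trans (hTn.trans hnM))
      nlinarith
    have hM1 : 1 ≤ M := by omega
    have h8 : M * (2 * M * M + 1) ≤ 3 * M ^ 3 := by
      have : M ≤ M ^ 3 := Nat.le_self_pow (by norm_num) M
      nlinarith
    have h9 : 1 ≤ M ^ 3 := Nat.one_le_pow _ _ hM1
    have h10 : P' ≤ P' * M ^ 3 := Nat.le_mul_of_pos_right _ h9
    have h11 : M ^ 3 ≤ P' * M ^ 3 := Nat.le_mul_of_pos_left _ hP'1
    nlinarith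
  obtain ⟨x, hx1, hx2⟩ := HC n (T n) (w n) (n * 2 ^ w n) L h1 (hT n) hL (by
      refine le_trans ?_ h2
      have h7 : ((T n + L.length : ℕ) : ℝ) ≤ 2 * T n := by
        have : ((T n + L.length : ℕ) : ℝ) ≤ ((2 * T n : ℕ) : ℝ) := by
          exact_mod_cast (by omega)
        push_cast at this ⊢
        linarith
      have h8 : 0 ≤ T n * Real.log n := by positivity
      calc C * (((T n + L.length : ℕ) : ℝ) * Real.log n)
          ≤ C * (2 * T n * Real.log n) := by
            apply mul_le_mul_of_nonneg_left _ hC.le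
            exact mul_le_mul_of_nonneg_right h7 (by linarith)
        _ ≤ (2 * C + 1) * (T n * Real.log n) := by nlinarith) h3 le_rfl P k D R (by
      refine le_trans ?_ h4
      rw [← hMdef]
      rw [← hMdef] at hP
      rw [← hP'] at hP ⊢
      have h7 : ((total L * (P' + L.length * (2 * n * M + 1)) : ℕ) : ℝ) ≤
          ((total L * P' : ℕ) : ℝ) * (4 * (M : ℝ) ^ 3) := by
        exact_mod_cast hproc
      refine h7.trans ?_
      calc ((total L * P' : ℕ) : ℝ) * (4 * (M : ℝ) ^ 3)
          ≤ ((2 - δ) ^ n * (c * (M : ℝ) ^ e)) * (4 * (M : ℝ) ^ 3) :=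
            mul_le_mul_of_nonneg_right hP (by positivity)
        _ = (2 - δ) ^ n * (((4 * c : ℕ) : ℝ) * (M : ℝ) ^ (e + 3)) := by
            push_cast
            rw [pow_add]
            ring) hD hR
  refine ⟨x, hx1, lt_of_le_of_lt hx2 ?_⟩
  have h7 : (2 : ℝ) ^ (-((w n : ℝ) / C)) ≤ 2 ^ (-((w n : ℝ) / (2 * C + 1))) := by
    apply Real.rpow_le_rpow_of_exponent_le (by norm_num)
    rw [neg_le_neg_iff]
    exact div_le_div_of_nonneg_left (Nat.cast_nonneg _) hC (by linarith)
  linarith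

end Pool.Agent.W964.Wd
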